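import Pool.Agent.H.MP_5d6127_an.A

set_option autoImplicit false

open Set Filter Metric

namespace Pool.Agent.Results.MP_5d6127_an.Counter

/-- initial maps of normal Loewner chains on the bidisc (unit ball of the max norm) -/
def InS0 (f : ℂ × ℂ → ℂ × ℂ) : Prop :=
  ∃ F : ℝ → ℂ × ℂ → ℂ × ℂ, (∀ z ∈ ball (0 : ℂ × ℂ) 1, F 0 z = f z) ∧
    (∀ t : ℝ, 0 ≤ t → DifferentiableOn ℂ (F t) (ball 0 1) ∧ InjOn (F t) (ball 0 1) ∧ F t 0 = 0 ∧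
      fderiv ℂ (F t) 0 = (Real.exp t : ℂ) • ContinuousLinearMap.id ℂ (ℂ × ℂ)) ∧
    (∀ s t : ℝ, 0 ≤ s → s ≤ t → F s '' ball 0 1 ⊆ F t '' ball 0 1) ∧
    ∀ u : ℕ → ℝ, (∀ n, 0 ≤ u n) → ∃ φ : ℕ → ℕ, StrictMono φ ∧ ∃ g : ℂ × ℂ → ℂ × ℂ,
      TendstoLocallyUniformlyOn (fun n z => (Real.exp (-u (φ n)) : ℂ) • F (u (φ n)) z) g atTop
        (ball 0 1)

theorem result : ∀ M : ℝ, 1 < M → ∃ f : ℂ × ℂ → ℂ × ℂ, InS0 f ∧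
    (∀ z ∈ ball (0 : ℂ × ℂ) 1, ‖f z‖ ≤ M) ∧
    1 - 1 / M < ‖iteratedDeriv 2 (fun w : ℂ => (f (0, w)).1) 0 / 2‖ := by
  intro M hM
  obtain ⟨ε, e0, e1, e2, e3⟩ := H.MP_5d6127_an.eps M hM
  refine ⟨H.MP_5d6127_an.sh (1 - 1 / M + ε), H.MP_5d6127_an.chain _ (by linarith) e2,
    H.MP_5d6127_an.bound _ _ (by linarith) e3, ?_⟩
  rw [H.MP_5d6127_an.coef, Complex.norm_real, Real.norm_eq_abs, abs_of_nonneg (by linarith)]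
  linarith

end Pool.Agent.Results.MP_5d6127_an.Counter
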